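import Pool.Agent.OMF.Stmts

/-!
# Squad OMF, row TY1: run on a line and a conic without line
-/

set_option autoImplicit false

namespace Pool.Agent.OMF.H85

open Finset Pool.Agent.GTO Pool.Agent.OMF
open scoped Classical

theorem ip_self (w : V) (hw : w ≠ 0) : ip w w ≠ 0 := by
  intro h
  apply hw
  unfold ip at h
  have h0 : w 0 = 0 := by nlinarith [mul_self_nonneg (w 0), mul_self_nonneg (w 1), mul_self_nonneg (w 2)]
  have h1 : w 1 = 0 := by nlinarith [mul_self_nonneg (w 0), mul_self_nonneg (w 1), mul_self_nonneg (w 2)]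
  have h2 : w 2 = 0 := by nlinarith [mul_self_nonneg (w 0), mul_self_nonneg (w 1), mul_self_nonneg (w 2)]
  funext i
  fin_cases i
  · exact h0
  · exact h1
  · exact h2

theorem ident (u v x w : V) : dt u v x * ip w w =
    dt w v x * ip w u + dt u w x * ip w v + dt u v w * ip w x := by
  unfold dt ip
  ring

theorem flat (bas : BasStmt) {ι : Type} [Fintype ι] (a : ι → V) (hPI : PI a) (w : V) (hw : w ≠ 0)
    {x y z p q : ι} (h : Tri a x y z) (hp : p ∈ ({x, y, z} : Finset ι))
    (hq : q ∈ ({x, y, z} : Finset ι)) (hpq : p ≠ q) (hSp : ip w (a p) = 0)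
    (hSq : ip w (a q) = 0) (k : ι) : ip w (a k) = 0 → k ∈ ({x, y, z} : Finset ι) := by
  intro hk
  obtain ⟨hxy, hyz, hzx, hln⟩ := h
  have h1 : ln a p q = ln a x y := by
    apply (bas.2.2.2.2.2 ι a hPI).1 x y p q hxy hpq
    · rw [hln]; exact hp
    · rw [hln]; exact hq
  rw [← hln, ← h1]
  unfold ln
  rw [Finset.mem_filter]
  refine ⟨Finset.mem_univ _, ?_⟩
  have h2 := ident (a p) (a q) (a k) w
  rw [hSp, hSq, hk, mul_zero, mul_zero, mul_zero, add_zero, add_zero] at h2
  exact (mul_eq_zero.mp h2).resolve_right (ip_self w hw)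

theorem flat' (bas : BasStmt) {ι : Type} [Fintype ι] (a : ι → V) (hPI : PI a) (w : V)
    {x y z p q : ι} (h : Tri a x y z) (hp : p ∈ ({x, y, z} : Finset ι))
    (hq : q ∈ ({x, y, z} : Finset ι)) (hpq : p ≠ q) (hSp : ip w (a p) = 0)
    (hSq : ip w (a q) = 0) (k : ι) : k ∈ ({x, y, z} : Finset ι) → ip w (a k) = 0 := by
  intro hk
  obtain ⟨hxy, hyz, hzx, hln⟩ := h
  have h1 : ln a p q = ln a x y := by
    apply (bas.2.2.2.2.2 ι a hPI).1 x y p q hxy hpq
    · rw [hln]; exact hp
    · rw [hln]; exact hq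
  rw [← hln, ← h1] at hk
  unfold ln at hk
  rw [Finset.mem_filter] at hk
  obtain ⟨s, t, hst⟩ := (bas.2.2.2.1 (a p) (a q) (a k) (hPI p q hpq)).mp hk.2
  have h2 : ip w (a k) = s * ip w (a p) + t * ip w (a q) := by
    rw [hst]
    unfold ip
    simp only [Pi.add_apply, Pi.smul_apply, smul_eq_mul]
    ring
  rw [h2, hSp, hSq, mul_zero, mul_zero, add_zero]

/-- the combinatorial statement -/
theorem comb {ι : Type} [Fintype ι] (a : ι → V) (S K : ι → Prop)
    (hS1 : ∀ x y z p q, Tri a x y z → p ∈ ({x, y, z} : Finset ι) → q ∈ ({x, y, z} : Finset ι) →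
      p ≠ q → S p → S q → ∀ k, S k ↔ k ∈ ({x, y, z} : Finset ι))
    (hK : ∀ x y z, Tri a x y z → K x → K y → K z → False)
    (N : ℕ) (O Gm G1 G2 : ι) (A B : ℕ → ι) (hR : IsRun a N O Gm G1 G2 A B) (hN : 6 ≤ N)
    (hO : S O ∨ K O) (hGm : S Gm ∨ K Gm) (hG1 : S G1 ∨ K G1)
    (hAB : ∀ i ≤ N + 1, (S (A i) ∨ K (A i)) ∧ (S (B i) ∨ K (B i))) :
    (¬ K O ∧ ∀ i ≤ N + 1, K (A i) ∧ K (B i)) ∨
    (K O ∧ K G1 ∧ K Gm ∧ ∀ i ≤ N + 1, S (A i) ∧ ¬ K (A i) ∧ K (B i)) ∨
    (K O ∧ K G1 ∧ K Gm ∧ ∀ i ≤ N + 1, S (B i) ∧ ¬ K (B i) ∧ K (A i)) := by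
  obtain ⟨hOc, hG1c, hGmc, hG2c, hd, hnd, hne, hne2⟩ := hR
  by_cases hSO : S O
  · -- case (a)
    left
    have hno : ∀ i ≤ N + 1, ¬ S (A i) ∧ ¬ S (B i) := by
      intro i0 hi0
      by_contra hcon
      have hex : S (A i0) ∨ S (B i0) := by
        by_contra h
        push Not at h
        exact hcon h
      have hT := hOc i0 hi0
      have hchar : ∀ k, S k ↔ k ∈ ({O, A i0, B i0} : Finset ι) := by
        rcases hex with h | h
        · exact hS1 O (A i0) (B i0) O (A i0) hT (by simp) (by simp) (hne i0 hi0).1.symm hSO h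
        · exact hS1 O (A i0) (B i0) O (B i0) hT (by simp) (by simp)
            (hne i0 hi0).2.2.2.1.symm hSO h
      have hnot : ∀ i ≤ N + 1, i ≠ i0 → K (A i) ∧ K (B i) := by
        intro i hi hii
        constructor
        · rcases (hAB i hi).1 with h | h
          · exfalso
            have h1 := (hchar (A i)).mp h
            simp only [Finset.mem_insert, Finset.mem_singleton] at h1
            rcases h1 with h1 | h1 | h1
            · exact (hne i hi).1 h1
            · exact ((hd i hi i0 hi0).2 hii).1 h1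
            · exact (hd i hi i0 hi0).1 h1
          · exact h
        · rcases (hAB i hi).2 with h | h
          · exfalso
            have h1 := (hchar (B i)).mp h
            simp only [Finset.mem_insert, Finset.mem_singleton] at h1
            rcases h1 with h1 | h1 | h1
            · exact (hne i hi).2.2.2.1 h1
            · exact (hd i0 hi0 i hi).1 h1.symm
            · exact ((hd i hi i0 hi0).2 hii).2 h1
          · exact h
      obtain ⟨i, hi, hi1, hi2⟩ : ∃ i ≤ N, i ≠ i0 ∧ i + 1 ≠ i0 := by
        by_cases h : i0 ≤ 1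
        · exact ⟨2, by omega, by omega, by omega⟩
        · by_cases h2 : i0 = 2
          · exact ⟨0, by omega, by omega, by omega⟩
          · exact ⟨0, by omega, by omega, by omega⟩
      have hG : ¬ K G1 := by
        intro h
        exact hK _ _ _ (hG1c i hi) h (hnot i (by omega) hi1).1 (hnot (i + 1) (by omega) hi2).2
      have hSG := hG1.resolve_right hG
      have h1 := (hchar G1).mp hSG
      simp only [Finset.mem_insert, Finset.mem_singleton] at h1
      rcases h1 with h1 | h1 | h1
      · simp [List.nodup_cons] at hnd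
        exact hnd.1.2.1 h1.symm
      · exact (hne i0 hi0).2.2.1 h1.symm
      · exact (hne i0 hi0).2.2.2.2.2 h1.symm
    have hall : ∀ i ≤ N + 1, K (A i) ∧ K (B i) := fun i hi =>
      ⟨(hAB i hi).1.resolve_left (hno i hi).1, (hAB i hi).2.resolve_left (hno i hi).2⟩
    refine ⟨?_, hall⟩
    intro hKO
    exact hK _ _ _ (hOc 0 (by omega)) hKO (hall 0 (by omega)).1 (hall 0 (by omega)).2
  · -- case (b)
    right
    have hKO : K O := hO.resolve_left hSO
    have hnotboth : ∀ i ≤ N + 1, ¬ (S (A i) ∧ S (B i)) := by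
      rintro i hi ⟨h1, h2⟩
      apply hSO
      rw [hS1 O (A i) (B i) (A i) (B i) (hOc i hi) (by simp) (by simp) (hd i hi i hi).1 h1 h2]
      simp
    have hone : ∀ i ≤ N + 1, (S (A i) ∧ ¬ K (A i) ∧ ¬ S (B i) ∧ K (B i)) ∨
        (S (B i) ∧ ¬ K (B i) ∧ ¬ S (A i) ∧ K (A i)) := by
      intro i hi
      have h1 := hnotboth i hi
      have h2 : ¬ (K (A i) ∧ K (B i)) := fun h => hK _ _ _ (hOc i hi) hKO h.1 h.2
      have h3 := hAB i hi
      tauto
    have hp : ∀ i ≤ N + 1, ∃ p, S p ∧ (p = A i ∨ p = B i) := by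
      intro i hi
      rcases hone i hi with h | h
      · exact ⟨A i, h.1, Or.inl rfl⟩
      · exact ⟨B i, h.1, Or.inr rfl⟩
    have hno2 : ∀ x y z p q, Tri a x y z → p ∈ ({x, y, z} : Finset ι) →
        q ∈ ({x, y, z} : Finset ι) → p ≠ q → S p → S q → False := by
      intro x y z p q hT hpx hqx hpq hSp hSq
      have hchar := hS1 x y z p q hT hpx hqx hpq hSp hSq
      choose f hf using fun i : Fin 4 => hp i.1 (by have := i.2; omega)
      have hinj : Function.Injective f := by
        intro i j hij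
        by_contra hne'
        have hij' : i.1 ≠ j.1 := fun h => hne' (Fin.ext h)
        have hi : i.1 ≤ N + 1 := by have := i.2; omega
        have hj : j.1 ≤ N + 1 := by have := j.2; omega
        rcases (hf i).2 with h1 | h1 <;> rcases (hf j).2 with h2 | h2
        · exact ((hd i.1 hi j.1 hj).2 hij').1 (by rw [← h1, ← h2, hij])
        · exact (hd i.1 hi j.1 hj).1 (by rw [← h1, ← h2, hij])
        · exact (hd j.1 hj i.1 hi).1 (by rw [← h1, ← h2, hij])
        · exact ((hd i.1 hi j.1 hj).2 hij').2 (by rw [← h1, ← h2, hij])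
      have hsub : Finset.univ.image f ⊆ ({x, y, z} : Finset ι) := by
        intro k hk
        obtain ⟨i, _, rfl⟩ := Finset.mem_image.mp hk
        exact (hchar (f i)).mp (hf i).1
      have hc1 : (Finset.univ.image f).card = 4 := by
        rw [Finset.card_image_of_injective _ hinj]
        simp
      have hc2 := Finset.card_le_card hsub
      have hc3 : ({x, y, z} : Finset ι).card ≤ 3 := Finset.card_le_three
      omega
    by_cases hA0 : S (A 0)
    · left
      have hall : ∀ i ≤ N + 1, S (A i) := by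
        intro i
        induction i with
        | zero => intro _; exact hA0
        | succ i ih =>
          intro hi
          have hSi := ih (by omega)
          rcases hone (i + 1) hi with h | h
          · exact h.1
          · exfalso
            exact hno2 G1 (A i) (B (i + 1)) (A i) (B (i + 1)) (hG1c i (by omega)) (by simp)
              (by simp) (hd i (by omega) (i + 1) hi).1 hSi h.1
      have hall2 : ∀ i ≤ N + 1, S (A i) ∧ ¬ K (A i) ∧ K (B i) := by
        intro i hi
        rcases hone i hi with h | h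
        · exact ⟨h.1, h.2.1, h.2.2.2⟩
        · exact absurd (hall i hi) h.2.2.1
      refine ⟨hKO, ?_, ?_, hall2⟩
      · refine hG1.resolve_left fun h => ?_
        exact hno2 G1 (A 0) (B 1) G1 (A 0) (hG1c 0 (by omega)) (by simp) (by simp)
          (hne 0 (by omega)).2.2.1.symm h hA0
      · refine hGm.resolve_left fun h => ?_
        exact hno2 Gm (A 1) (B 0) Gm (A 1) (hGmc 0 (by omega)) (by simp) (by simp)
          (hne 1 (by omega)).2.1.symm h (hall 1 (by omega))
    · right
      have hB0 : S (B 0) := by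
        rcases hone 0 (by omega) with h | h
        · exact absurd h.1 hA0
        · exact h.1
      have hall : ∀ i ≤ N + 1, S (B i) := by
        intro i
        induction i with
        | zero => intro _; exact hB0
        | succ i ih =>
          intro hi
          have hSi := ih (by omega)
          rcases hone (i + 1) hi with h | h
          · exfalso
            exact hno2 Gm (A (i + 1)) (B i) (A (i + 1)) (B i) (hGmc i (by omega)) (by simp)
              (by simp) (hd (i + 1) hi i (by omega)).1 h.1 hSi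
          · exact h.1
      have hall2 : ∀ i ≤ N + 1, S (B i) ∧ ¬ K (B i) ∧ K (A i) := by
        intro i hi
        rcases hone i hi with h | h
        · exact absurd (hall i hi) h.2.2.1
        · exact ⟨h.1, h.2.1, h.2.2.2⟩
      refine ⟨hKO, ?_, ?_, hall2⟩
      · refine hG1.resolve_left fun h => ?_
        exact hno2 G1 (A 0) (B 1) G1 (B 1) (hG1c 0 (by omega)) (by simp) (by simp)
          (hne 1 (by omega)).2.2.2.2.2.symm h (hall 1 (by omega))
      · refine hGm.resolve_left fun h => ?_
        exact hno2 Gm (A 1) (B 0) Gm (B 0) (hGmc 0 (by omega)) (by simp) (by simp)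
          (hne 0 (by omega)).2.2.2.2.1.symm h hB0

theorem ty1 (bas : BasStmt) (lnq : LnqStmt) : Ty1Stmt := by
  intro ι _ a hPI N O Gm G1 G2 A B w e hR hN hw he hfour hAB
  refine comb a (fun i => ip w (a i) = 0) (fun i => i ∈ Zq a e) ?_ ?_ N O Gm G1 G2 A B hR hN
    (hfour O (by simp)) (hfour Gm (by simp)) (hfour G1 (by simp)) hAB
  · intro x y z p q hT hp hq hpq hSp hSq k
    exact ⟨flat bas a hPI w hw hT hp hq hpq hSp hSq k, flat' bas a hPI w hT hp hq hpq hSp hSq k⟩
  · intro x y z hT hx hy hz
    refine lnq.2.1 ι a hPI e he x y z hT.1 hT.2.1 hT.2.2.1 ?_ hx hy hz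
    rw [hT.2.2.2]
    simp

end Pool.Agent.OMF.H85

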